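import Pool.Agent.K.MP_0c3bbf_an.C0

open MeasureTheory Filter Pool.Agent.P.MP_0c3bbf_an

theorem Pool.Agent.Results.MP_0c3bbf_an.GrowthGap.result
    (G : Type) [Group G] [Countable G] [DecidableEq G] (F : ℕ → Finset G) (hF : IsFolner F)
    (hno : ∀ (X : Type) [MeasurableSpace X] [StandardBorelSpace X] (μ : Measure X)
      [IsProbabilityMeasure μ] [MulAction G X] [MeasurableConstSMul G X]
      [SMulInvariantMeasure G X μ], EssFree G μ → ¬ IsCompactAction G μ) :
    ∃ φ : ℕ → NNReal, Tendsto φ atTop atTop ∧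
      ∀ (X : Type) [MeasurableSpace X] [StandardBorelSpace X] (μ : Measure X)
        [IsProbabilityMeasure μ] [MulAction G X] [MeasurableConstSMul G X]
        [SMulInvariantMeasure G X μ], EssFree G μ → ∀ ρ : X → X → ℝ, IsGoodSemimetric G μ ρ →
          Precsim (fun n _ => (φ n : ENNReal)) (Phi μ F ρ) :=
  Pool.Agent.P.MP_0c3bbf_an.main G F hF hno
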